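import Pool.Agent.Lib.MP_98dabe_lc.Build

/-!
The structure of an arbitrary maximal chain in a partition lattice.
-/

namespace Pool.Agent.Lib.MP_98dabe_lc

open Set Cardinal

universe u

variable {X : Type u} {C : Set (Setoid X)}

/-- The least member of the chain that joins `x` and `y`. -/
def hi (C : Set (Setoid X)) (x y : X) : Setoid X := sInf {P | P ∈ C ∧ P x y}

theorem hi_le {x y : X} {P : Setoid X} (hP : P ∈ C) (h : P x y) : hi C x y ≤ P :=
  sInf_le ⟨hP, h⟩

theorem hi_rel (x y : X) : hi C x y x y := by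
  unfold hi
  rw [Setoid.sInf_iff]
  exact fun P hP => hP.2

theorem hi_comm (x y : X) : hi C x y = hi C y x := by
  unfold hi
  congr 1
  ext P
  exact ⟨fun h => ⟨h.1, P.symm h.2⟩, fun h => ⟨h.1, P.symm h.2⟩⟩

theorem hi_mem (hC : IsMaxChain (· ≤ ·) C) (x y : X) : hi C x y ∈ C := by
  refine mem_of_comparable hC fun P hP => ?_
  by_cases h : P x y
  · exact Or.inl (hi_le hP h)
  · refine Or.inr (le_sInf fun Q hQ => ?_)
    exact (hC.1.total hP hQ.1).resolve_right fun h' => h (h' hQ.2)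

/-- Two points are joined strictly below `Q`. -/
def Lo (C : Set (Setoid X)) (Q : Setoid X) (a b : X) : Prop := a = b ∨ hi C a b < Q

theorem Lo.symm {Q : Setoid X} {a b : X} (h : Lo C Q a b) : Lo C Q b a :=
  h.imp Eq.symm fun h => by rwa [hi_comm]

theorem hi_ultra (hC : IsMaxChain (· ≤ ·) C) (a b c : X) :
    hi C a c ≤ hi C a b ∨ hi C a c ≤ hi C b c := by
  rcases hC.1.total (hi_mem hC a b) (hi_mem hC b c) with h | h
  · exact Or.inr (hi_le (hi_mem hC b c) ((hi C b c).trans (h (hi_rel a b)) (hi_rel b c)))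
  · exact Or.inl (hi_le (hi_mem hC a b) ((hi C a b).trans (hi_rel a b) (h (hi_rel b c))))

theorem Lo.trans (hC : IsMaxChain (· ≤ ·) C) {Q : Setoid X} {a b c : X} (h : Lo C Q a b)
    (h' : Lo C Q b c) : Lo C Q a c := by
  rcases h with rfl | h
  · exact h'
  rcases h' with rfl | h'
  · exact Or.inr h
  exact Or.inr ((hi_ultra hC a b c).elim (fun g => g.trans_lt h) fun g => g.trans_lt h')

theorem Lo.rel {Q : Setoid X} {a b : X} (h : Lo C Q a b) : Q a b := by
  rcases h with rfl | h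
  · exact Q.refl _
  · exact h.le (hi_rel a b)

theorem not_lo {a b : X} (h : a ≠ b) : ¬ Lo C (hi C a b) a b :=
  fun g => g.elim h (lt_irrefl _)

/-- Every jump of a maximal chain merges exactly two blocks. -/
theorem binary (hC : IsMaxChain (· ≤ ·) C) {a b c d : X} (hcd : c ≠ d)
    (h : hi C c d = hi C a b) :
    (Lo C (hi C a b) c a ∧ Lo C (hi C a b) d b) ∨ (Lo C (hi C a b) c b ∧ Lo C (hi C a b) d a) := by
  set Q := hi C a b with hQ
  let R : Setoid X :=
    { r := fun u v => Lo C Q u v ∨ (Lo C Q u a ∧ Lo C Q v b) ∨ (Lo C Q u b ∧ Lo C Q v a)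
      iseqv := ⟨fun _ => Or.inl (Or.inl rfl),
        fun h => h.elim (fun h => Or.inl h.symm)
          (fun h => Or.inr (h.elim (fun h => Or.inr h.symm) fun h => Or.inl h.symm)),
        fun {u v w} h h' => by
          rcases h with h | ⟨h1, h2⟩ | ⟨h1, h2⟩ <;> rcases h' with g | ⟨g1, g2⟩ | ⟨g1, g2⟩
          · exact Or.inl (h.trans hC g)
          · exact Or.inr (Or.inl ⟨h.trans hC g1, g2⟩)
          · exact Or.inr (Or.inr ⟨h.trans hC g1, g2⟩)
          · exact Or.inr (Or.inl ⟨h1, g.symm.trans hC h2⟩)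
          · exact Or.inr (Or.inl ⟨h1, g2⟩)
          · exact Or.inl (h1.trans hC g2.symm)
          · exact Or.inr (Or.inr ⟨h1, g.symm.trans hC h2⟩)
          · exact Or.inl (h1.trans hC g2.symm)
          · exact Or.inr (Or.inr ⟨h1, g2⟩)⟩ }
  have hRQ : R ≤ Q := by
    intro u v huv
    have hab : Q a b := hi_rel a b
    rcases huv with g | ⟨g1, g2⟩ | ⟨g1, g2⟩
    · exact g.rel
    · exact Q.trans g1.rel (Q.trans hab (Q.symm g2.rel))
    · exact Q.trans g1.rel (Q.trans (Q.symm hab) (Q.symm g2.rel))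
  have hRC : R ∈ C := by
    refine mem_of_comparable hC fun P hP => ?_
    by_cases hQP : Q ≤ P
    · exact Or.inl (hRQ.trans hQP)
    · have hlt : P < Q := hC.1.lt_of_not_ge (hi_mem hC a b) hP hQP
      exact Or.inr fun u v huv => Or.inl (Or.inr ((hi_le hP huv).trans_lt hlt))
  have hQR : Q ≤ R := hi_le hRC (Or.inr (Or.inl ⟨Or.inl rfl, Or.inl rfl⟩))
  have hcd' : Q c d := h ▸ hi_rel c d
  rcases hQR hcd' with g | g
  · exact absurd (h ▸ g) (not_lo hcd)
  · exact g

/-- The upper ends of the jumps of the chain. -/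
def Jumps (C : Set (Setoid X)) : Set (Setoid X) := {Q | ∃ x y, x ≠ y ∧ hi C x y = Q}

theorem jumps_subset (hC : IsMaxChain (· ≤ ·) C) : Jumps C ⊆ C := by
  rintro _ ⟨x, y, -, rfl⟩
  exact hi_mem hC x y

theorem mk_jumps_le [Infinite X] : #(Jumps C) ≤ #X := by
  have : Jumps C ⊆ range fun p : X × X => hi C p.1 p.2 := by
    rintro _ ⟨x, y, -, rfl⟩
    exact ⟨(x, y), rfl⟩
  refine (mk_le_mk_of_subset this).trans (mk_range_le.trans ?_)
  simp only [mk_prod, lift_id]
  exact (mul_eq_self (aleph0_le_mk X)).le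

/-- The points embed in a chain of sets of jumps. -/
theorem exists_chain_jumps (hC : IsMaxChain (· ≤ ·) C) :
    ∃ S : X → Set (Jumps C), Function.Injective S ∧ ∀ x y, S x ⊆ S y ∨ S y ⊆ S x := by
  choose A B hAB hQ using fun Q : Jumps C => Q.2
  let J : ∀ x y : X, x ≠ y → Jumps C := fun x y h => ⟨hi C x y, x, y, h, rfl⟩
  -- the two blocks are different
  have hdis : ∀ (Q : Jumps C) x, Lo C Q x (A Q) → Lo C Q x (B Q) → False := by
    intro Q x h1 h2
    have := h1.symm.trans hC h2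
    rw [← hQ Q] at this
    exact not_lo (hAB Q) (by rwa [hQ Q] at this ⊢)
  have hbin : ∀ (Q : Jumps C) x y, x ≠ y → hi C x y = Q →
      (Lo C Q x (A Q) ∧ Lo C Q y (B Q)) ∨ (Lo C Q x (B Q) ∧ Lo C Q y (A Q)) := by
    intro Q x y hxy h
    have := binary hC (a := A Q) (b := B Q) hxy (by rw [h, hQ Q])
    rwa [hQ Q] at this
  let lt : X → X → Prop := fun x y => ∃ Q : Jumps C, x ≠ y ∧ hi C x y = Q ∧ Lo C Q x (A Q)
  have htot : ∀ x y, x ≠ y → lt x y ∨ lt y x := by
    intro x y hxy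
    rcases hbin (J x y hxy) x y hxy rfl with h | h
    · exact Or.inl ⟨J x y hxy, hxy, rfl, h.1⟩
    · exact Or.inr ⟨J x y hxy, hxy.symm, hi_comm y x, h.2⟩
  have hB : ∀ (Q : Jumps C) x y, x ≠ y → hi C x y = Q → Lo C Q x (A Q) → Lo C Q y (B Q) := by
    intro Q x y hxy h hx
    rcases hbin Q x y hxy h with g | g
    · exact g.2
    · exact (hdis Q x hx g.1).elim
  have hAB' : ∀ (Q : Jumps C) x y, Lo C Q x (A Q) → Lo C Q y (B Q) → x ≠ y ∧ hi C x y = Q := by
    intro Q x y hx hy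
    have hn : ¬ Lo C Q x y := fun g => hdis Q x hx (g.trans hC hy)
    refine ⟨fun g => hn (Or.inl g), ?_⟩
    have hQC : (Q : Setoid X) ∈ C := jumps_subset hC Q.2
    have hab : (Q : Setoid X) (A Q) (B Q) := by
      have := hi_rel (C := C) (A Q) (B Q)
      rwa [hQ Q] at this
    have hle : hi C x y ≤ Q :=
      hi_le hQC (Q.1.trans hx.rel (Q.1.trans hab (Q.1.symm hy.rel)))
    exact hle.eq_or_lt.resolve_right fun g => hn (Or.inr g)
  have htrans : ∀ x y z, lt x y → lt y z → lt x z := by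
    rintro x y z ⟨Q, hxy, hQ1, hx⟩ ⟨Q', hyz, hQ2, hy⟩
    have hy' := hB Q x y hxy hQ1 hx
    have hz' := hB Q' y z hyz hQ2 hy
    by_cases hle : (Q : Setoid X) ≤ Q'
    · rcases hle.eq_or_lt with heq | hlt
      · have : Q = Q' := Subtype.ext heq
        subst this
        exact (hdis Q y hy hy').elim
      · have hxA : Lo C Q' x (A Q') := Lo.trans hC (Or.inr (hQ1 ▸ hlt)) hy
        obtain ⟨g1, g2⟩ := hAB' Q' x z hxA hz'
        exact ⟨Q', g1, g2, hxA⟩
    · have hlt : (Q' : Setoid X) < Q :=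
        hC.1.lt_of_not_ge (jumps_subset hC Q.2) (jumps_subset hC Q'.2) hle
      have hzB : Lo C Q z (B Q) := Lo.trans hC (Lo.symm (Or.inr (hQ2 ▸ hlt))) hy'
      obtain ⟨g1, g2⟩ := hAB' Q x z hx hzB
      exact ⟨Q, g1, g2, hx⟩
  let S : X → Set (Jumps C) := fun x => {Q | ∃ y, Lo C Q y (B Q) ∧ (y = x ∨ lt y x)}
  have hmono : ∀ x y, lt x y → S x ⊆ S y := by
    rintro x y hxy Q ⟨z, hz, rfl | h⟩
    · exact ⟨z, hz, Or.inr hxy⟩
    · exact ⟨z, hz, Or.inr (htrans _ _ _ h hxy)⟩
  have hstrict : ∀ x y, lt x y → S x ≠ S y := by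
    rintro x y ⟨Q, hxy, hQ1, hx⟩ heq
    have h1 : Q ∈ S y := ⟨y, hB Q x y hxy hQ1 hx, Or.inl rfl⟩
    rw [← heq] at h1
    obtain ⟨z, hz, rfl | ⟨Q', hzx, hQ2, hz'⟩⟩ := h1
    · exact hdis Q z hx hz
    · have : Q = Q' := by
        apply Subtype.ext
        rw [← hQ2, hi_comm, (hAB' Q x z hx hz).2]
      subst this
      exact hdis Q z hz' hz
  refine ⟨S, fun x y h => ?_, fun x y => ?_⟩
  · by_contra hxy
    rcases htot x y hxy with g | g
    · exact hstrict x y g h
    · exact hstrict y x g h.symm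
  · by_cases hxy : x = y
    · exact Or.inl (hxy ▸ Subset.rfl)
    · exact (htot x y hxy).imp (hmono x y) (hmono y x)

/-- A maximal chain of partitions of `X` of size `#W` gives a chain of `#X` subsets of `W`. -/
theorem exists_chain_of_max (hC : IsMaxChain (· ≤ ·) C) {W : Type u} (hW : #C ≤ #W) :
    ∃ D : Set (Set W), IsChain (· ⊆ ·) D ∧ #D = #X := by
  obtain ⟨S, hS, hc⟩ := exists_chain_jumps hC
  obtain ⟨e⟩ : Nonempty (Jumps C ↪ W) :=
    (Cardinal.le_def _ _).mp ((mk_le_mk_of_subset (jumps_subset hC)).trans hW)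
  refine ⟨range fun x => e '' S x, ?_, mk_range_eq _ ?_⟩
  · rintro _ ⟨x, rfl⟩ _ ⟨y, rfl⟩ -
    exact (hc x y).imp image_mono image_mono
  · exact (image_injective.mpr e.injective).comp hS

/-- A maximal chain is in bijection with the lower sets of its jumps. -/
theorem mk_eq_lower (hC : IsMaxChain (· ≤ ·) C) :
    #C = #{L : Set (Jumps C) | IsLowerSet L} := by
  refine mk_congr (Equiv.ofBijective
    (fun P => ⟨{Q : Jumps C | (Q : Setoid X) ≤ P.1}, fun Q Q' h h' =>
      le_trans (show (Q' : Setoid X) ≤ Q from h) h'⟩) ⟨?_, ?_⟩)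
  · have key : ∀ P P' : C, {Q : Jumps C | (Q : Setoid X) ≤ P.1} ⊆ {Q | (Q : Setoid X) ≤ P'.1} →
        P ≤ P' := by
      intro P P' h x y hxy
      by_cases he : x = y
      · subst he; exact P'.1.refl _
      · exact h (a := ⟨hi C x y, x, y, he, rfl⟩) (hi_le P.2 hxy) (hi_rel x y)
    intro P P' h
    have h' : {Q : Jumps C | (Q : Setoid X) ≤ P.1} = {Q : Jumps C | (Q : Setoid X) ≤ P'.1} :=
      congrArg Subtype.val h
    exact le_antisymm (key _ _ h'.le) (key _ _ h'.ge)
  · rintro ⟨L, hL⟩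
    have htot : ∀ Q Q' : Jumps C, Q ≤ Q' ∨ Q' ≤ Q := fun Q Q' =>
      hC.1.total (jumps_subset hC Q.2) (jumps_subset hC Q'.2)
    let P : Setoid X :=
      { r := fun u v => u = v ∨ ∃ Q ∈ L, (Q : Setoid X) u v
        iseqv := ⟨fun _ => Or.inl rfl,
          fun h => h.imp Eq.symm fun ⟨Q, hQ, h⟩ => ⟨Q, hQ, Q.1.symm h⟩,
          fun h h' => by
            rcases h with rfl | ⟨Q, hQ, h⟩
            · exact h'
            rcases h' with rfl | ⟨Q', hQ', h'⟩
            · exact Or.inr ⟨Q, hQ, h⟩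
            rcases htot Q Q' with g | g
            · exact Or.inr ⟨Q', hQ', Q'.1.trans (g h) h'⟩
            · exact Or.inr ⟨Q, hQ, Q.1.trans h (g h')⟩⟩ }
    have hP : P ∈ C := by
      refine mem_of_comparable hC fun R hR => ?_
      by_cases h : ∀ Q ∈ L, (Q : Setoid X) ≤ R
      · refine Or.inl fun u v huv => ?_
        rcases huv with rfl | ⟨Q, hQ, g⟩
        · exact R.refl _
        · exact h Q hQ g
      · push Not at h
        obtain ⟨Q, hQ, g⟩ := h
        have : R ≤ Q := (hC.1.total hR (jumps_subset hC Q.2)).resolve_right g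
        exact Or.inr fun u v huv => Or.inr ⟨Q, hQ, this huv⟩
    refine ⟨⟨P, hP⟩, Subtype.ext ?_⟩
    ext Q
    constructor
    · intro h
      obtain ⟨x, y, hxy, hQ⟩ := Q.2
      have h1 : (Q : Setoid X) x y := hQ ▸ hi_rel x y
      rcases (show (Q : Setoid X) ≤ P from h) h1 with g | ⟨Q', hQ', g⟩
      · exact absurd g hxy
      · have : Q ≤ Q' := by
          change (Q : Setoid X) ≤ Q'
          rw [← hQ]
          exact hi_le (jumps_subset hC Q'.2) g
        exact hL this hQ'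
    · exact fun h u v huv => Or.inr ⟨Q, h, huv⟩

/-- Padding a linear order by a well order. -/
theorem pad {J : Type u} [LinearOrder J] [Infinite X] (hJ : #J ≤ #X)
    (hX : #X ≤ #{L : Set J | IsLowerSet L}) :
    ∃ D : Set (Set X), IsMaxChain (· ⊆ ·) D ∧ #D = #{L : Set J | IsLowerSet L} := by
  obtain ⟨oX, wX⟩ := exists_wellFoundedLT X
  have hXi : ℵ₀ ≤ #X := aleph0_le_mk X
  have hc : #(J ⊕ₗ X) = #X := by
    change #(J ⊕ X) = #X
    simp only [mk_sum, lift_id]
    exact add_eq_right hXi hJ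
  obtain ⟨e⟩ := Cardinal.eq.mp hc
  have hm := (isMaxChain_lower (J ⊕ₗ X)).image e.toOrderIsoSet
  refine ⟨_, hm, ?_⟩
  rw [mk_image_eq (RelIso.injective _)]
  apply le_antisymm
  · have h1 : #{L : Set (J ⊕ₗ X) | IsLowerSet L} ≤
        #({L : Set J | IsLowerSet L} × {L : Set X | IsLowerSet L}) := by
      refine mk_le_of_injective (f := fun L =>
        (⟨(fun j => toLex (Sum.inl j)) ⁻¹' L.1, L.2.preimage Sum.Lex.inl_mono⟩,
         ⟨(fun x => toLex (Sum.inr x)) ⁻¹' L.1, L.2.preimage Sum.Lex.inr_mono⟩)) ?_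
      intro L L' h
      have g1 := congrArg (fun p => p.1.1) h
      have g2 := congrArg (fun p => p.2.1) h
      apply Subtype.ext
      ext (j | x)
      · exact Set.ext_iff.mp g1 j
      · exact Set.ext_iff.mp g2 x
    refine h1.trans ?_
    simp only [mk_prod, lift_id]
    have h2 : #{L : Set X | IsLowerSet L} ≤ #{L : Set J | IsLowerSet L} :=
      (mk_lower_le X).trans (by rw [add_one_eq hXi]; exact hX)
    exact (mul_le_mul_right h2 _).trans (mul_eq_self (hXi.trans hX)).le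
  · refine mk_le_of_injective (f := fun L =>
      ⟨(fun j => toLex (Sum.inl j)) '' L.1, ?_⟩) ?_
    · rintro _ (b | b) hb ⟨a, ha, rfl⟩
      · exact ⟨b, L.2 (Sum.Lex.inl_le_inl_iff.mp hb) ha, rfl⟩
      · exact absurd hb Sum.Lex.not_inr_le_inl
    · intro L L' h
      have g := congrArg Subtype.val h
      exact Subtype.ext (image_injective.mpr (toLex.injective.comp Sum.inl_injective) g)

theorem exists_maxChain_sets [Infinite X] (hC : IsMaxChain (· ≤ ·) C) (hX : #X ≤ #C) :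
    ∃ D : Set (Set X), IsMaxChain (· ⊆ ·) D ∧ #D = #C := by
  classical
  have hJ : IsChain (· ≤ ·) (Jumps C) := hC.1.mono (jumps_subset hC)
  have h := mk_eq_lower hC
  have := @pad X (Jumps C) hJ.linearOrder _ mk_jumps_le (h ▸ hX)
  rw [h]
  exact this

end Pool.Agent.Lib.MP_98dabe_lc
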