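import Mathlib

/-!
Constructions of maximal chains in partition lattices.
-/

namespace Pool.Agent.Lib.MP_98dabe_lc

open Set Cardinal

universe u

/-- An element comparable with every element of a maximal chain belongs to it. -/
theorem mem_of_comparable {α : Type*} {r : α → α → Prop} {C : Set α} (hC : IsMaxChain r C) {a : α}
    (h : ∀ b ∈ C, r a b ∨ r b a) : a ∈ C := by
  have := hC.2 (hC.1.insert fun b hb _ => h b hb) (subset_insert _ _)
  rw [this]
  exact mem_insert _ _

theorem isMaxChain_of {α : Type*} {r : α → α → Prop} {C : Set α} (h1 : IsChain r C)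
    (h2 : ∀ a, (∀ b ∈ C, a ≠ b → r a b ∨ r b a) → a ∈ C) : IsMaxChain r C := by
  refine ⟨h1, fun t ht hCt => hCt.antisymm fun a ha => h2 a fun b hb hab => ?_⟩
  exact ht ha (hCt hb) hab

/-- The lower sets of a well order. -/
theorem mk_lower_le (W : Type u) [LinearOrder W] [WellFoundedLT W] :
    #{S : Set W | IsLowerSet S} ≤ #W + 1 := by
  have : {S : Set W | IsLowerSet S} ⊆ insert Set.univ (range (Iio : W → Set W)) := by
    intro S hS
    by_cases h : S = Set.univ
    · exact Or.inl h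
    · have hne : (Sᶜ).Nonempty := nonempty_compl.mpr h
      refine Or.inr ⟨wellFounded_lt.min _ hne, ?_⟩
      ext x
      constructor
      · intro hx
        by_contra hxS
        exact wellFounded_lt.not_lt_min _ hxS hx
      · intro hx
        by_contra hlt
        exact wellFounded_lt.min_mem _ hne (hS (not_lt.mp hlt) hx)
  exact (mk_le_mk_of_subset this).trans (mk_insert_le.trans (by gcongr; exact mk_range_le))

/-- The lower sets of a linear order form a maximal chain of sets. -/
theorem isMaxChain_lower (L : Type u) [LinearOrder L] :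
    IsMaxChain (· ⊆ ·) {S : Set L | IsLowerSet S} := by
  refine isMaxChain_of (fun S hS T hT _ => hS.total hT) fun S hS => ?_
  intro x y hyx hx
  rcases hyx.eq_or_lt with rfl | hlt
  · exact hx
  · by_cases h : S = Iio x
    · rw [h] at hx; exact absurd hx (lt_irrefl x)
    · rcases hS (Iio x) (isLowerSet_Iio x) h with h' | h'
      · exact absurd (h' hx) (lt_irrefl x)
      · exact h' hlt

/-- A chain of subsets of a well order gives a maximal chain of partitions. -/
theorem isMaxChain_ker {X V : Type u} [LinearOrder V] [WellFoundedLT V] (f : X → Set V)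
    (hf : Function.Injective f) (hc : ∀ x y, f x ⊆ f y ∨ f y ⊆ f x) :
    IsMaxChain (· ≤ ·)
      ((fun I : Set V => Setoid.ker fun x => f x ∩ I) '' {I : Set V | IsLowerSet I}) := by
  have anti : ∀ I I' : Set V, I ⊆ I' →
      (Setoid.ker fun x => f x ∩ I') ≤ Setoid.ker fun x => f x ∩ I := by
    intro I I' h x y hxy
    have hxy' : f x ∩ I' = f y ∩ I' := hxy
    change f x ∩ I = f y ∩ I
    rw [← inter_eq_self_of_subset_right h, ← inter_assoc, ← inter_assoc, hxy']
  refine isMaxChain_of ?_ fun R hR => ?_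
  · rintro _ ⟨I, hI, rfl⟩ _ ⟨I', hI', rfl⟩ -
    rcases hI.total hI' with h | h
    · exact Or.inr (anti _ _ h)
    · exact Or.inl (anti _ _ h)
  have hR' : ∀ I : Set V, IsLowerSet I →
      R ≤ (Setoid.ker fun x => f x ∩ I) ∨ (Setoid.ker fun x => f x ∩ I) ≤ R := by
    intro I hI
    by_cases h : R = Setoid.ker fun x => f x ∩ I
    · exact Or.inl h.le
    · exact hR _ ⟨I, hI, rfl⟩ h
  set I : Set V := {v | ∀ x y, R x y → ∀ w ≤ v, w ∈ f x → w ∈ f y} with hIdef
  have hI : IsLowerSet I := fun v v' hv h x y hxy w hw => h x y hxy w (hw.trans hv)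
  refine ⟨I, hI, le_antisymm ?_ ?_⟩
  swap
  · intro x y hxy
    change f x ∩ I = f y ∩ I
    ext w
    exact ⟨fun h => ⟨h.2 x y hxy w le_rfl h.1, h.2⟩,
      fun h => ⟨h.2 y x (R.symm hxy) w le_rfl h.1, h.2⟩⟩
  intro x y hxy
  have hxy' : f x ∩ I = f y ∩ I := hxy
  by_cases hu : I = Set.univ
  · rw [hu, inter_univ, inter_univ] at hxy'
    rw [hf hxy']
  have hne : (Iᶜ).Nonempty := nonempty_compl.mpr hu
  set v := wellFounded_lt.min _ hne with hv
  have hvI : v ∉ I := wellFounded_lt.min_mem _ hne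
  have hlt : ∀ w, w < v → w ∈ I := fun w hw => by
    by_contra h
    exact wellFounded_lt.not_lt_min _ h hw
  have hlt' : ∀ w ∈ I, w < v := fun w hw => by
    by_contra h
    exact hvI (hI (not_lt.mp h) hw)
  obtain ⟨x0, y0, hR0, w, hwv, hw1, hw2⟩ :
      ∃ x0 y0, R x0 y0 ∧ ∃ w ≤ v, w ∈ f x0 ∧ w ∉ f y0 := by
    by_contra hcon
    push Not at hcon
    exact hvI hcon
  have hwv' : w = v := by
    rcases hwv.eq_or_lt with h | h
    · exact h
    · exact absurd (hlt w h x0 y0 hR0 w le_rfl hw1) hw2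
  subst hwv'
  have hE : (Setoid.ker fun x => f x ∩ Iic v) ≤ R := by
    rcases hR' (Iic v) (isLowerSet_Iic v) with h | h
    · have h' : f x0 ∩ Iic v = f y0 ∩ Iic v := h hR0
      have : v ∈ f y0 ∩ Iic v := h' ▸ ⟨hw1, le_rfl⟩
      exact absurd this.1 hw2
    · exact h
  have h0 : f x0 ∩ I = f y0 ∩ I := by
    ext w
    exact ⟨fun h => ⟨h.2 x0 y0 hR0 w le_rfl h.1, h.2⟩,
      fun h => ⟨h.2 y0 x0 (R.symm hR0) w le_rfl h.1, h.2⟩⟩
  have agree : ∀ a b, f a ∩ I = f b ∩ I → (v ∈ f a ↔ v ∈ f b) → R a b := by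
    intro a b h1 h2
    apply hE
    change f a ∩ Iic v = f b ∩ Iic v
    ext w
    constructor
    · rintro ⟨ha, hw⟩
      rcases (show w ≤ v from hw).eq_or_lt with h | h
      · subst h; exact ⟨h2.mp ha, hw⟩
      · exact ⟨((h1 ▸ ⟨ha, hlt w h⟩ : w ∈ f b ∩ I)).1, hw⟩
    · rintro ⟨hb, hw⟩
      rcases (show w ≤ v from hw).eq_or_lt with h | h
      · subst h; exact ⟨h2.mpr hb, hw⟩
      · exact ⟨((h1 ▸ ⟨hb, hlt w h⟩ : w ∈ f a ∩ I)).1, hw⟩
  have key : ∀ a b, f a ∩ I = f b ∩ I → v ∈ f a → v ∉ f b → R a b := by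
    intro a b h1 ha hb
    have s1 : f b ⊆ f x0 := (hc b x0).resolve_right fun h => hb (h hw1)
    have s2 : f y0 ⊆ f a := (hc y0 a).resolve_right fun h => hw2 (h ha)
    have e1 : f a ∩ I = f x0 ∩ I := by
      apply Subset.antisymm
      · rw [h1]; exact inter_subset_inter_left _ s1
      · rw [h0]; exact inter_subset_inter_left _ s2
    have r1 : R a x0 := agree a x0 e1 (iff_of_true ha hw1)
    have r2 : R y0 b := agree y0 b (by rw [← h0, ← e1, h1]) (iff_of_false hw2 hb)
    exact R.trans r1 (R.trans hR0 r2)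
  by_cases hx : v ∈ f x <;> by_cases hy : v ∈ f y
  · exact agree x y hxy' (iff_of_true hx hy)
  · exact key x y hxy' hx hy
  · exact R.symm (key y x hxy'.symm hy hx)
  · exact agree x y hxy' (iff_of_false hx hy)

theorem short_chain_aux {X W V : Type u} [Infinite X] [Infinite W] (hW : #W ≤ #X)
    {D : Set (Set W)} (hD : IsChain (· ⊆ ·) D) (hDX : #D = #X) (i j : W → V)
    (hi : Function.Injective i) (hj : Function.Injective j) (hij : ∀ a b, i a ≠ j b)
    (hV : #V = #W) :
    ∃ C : Set (Setoid X), IsMaxChain (· ≤ ·) C ∧ #C = #W := by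
  have hWi : ℵ₀ ≤ #W := aleph0_le_mk W
  obtain ⟨oW, wW⟩ := exists_wellFoundedLT W
  obtain ⟨oV, wV⟩ := exists_wellFoundedLT V
  -- the enlarged chain
  set D' : Set (Set V) := ((fun L : Set W => i '' L) '' {L | IsLowerSet L}) ∪
    ((fun S : Set W => range i ∪ j '' S) '' D) with hD'
  have hchain : ∀ S ∈ D', ∀ T ∈ D', S ⊆ T ∨ T ⊆ S := by
    rintro _ (⟨S, hS, rfl⟩ | ⟨S, hS, rfl⟩) _ (⟨T, hT, rfl⟩ | ⟨T, hT, rfl⟩)
    · exact (hS.total hT).imp image_mono image_mono
    · exact Or.inl ((image_subset_range _ _).trans subset_union_left)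
    · exact Or.inr ((image_subset_range _ _).trans subset_union_left)
    · exact (hD.total hS hT).imp (fun h => union_subset_union_right _ (image_mono h))
        (fun h => union_subset_union_right _ (image_mono h))
  have hinj : Function.Injective (fun S : Set W =>
      (range i ∪ j '' S : Set V)) := by
    intro S T h
    ext w
    have : j w ∈ (range i ∪ j '' S : Set V) ↔
        j w ∈ (range i ∪ j '' T : Set V) := by
      have h' : (range i ∪ j '' S : Set V) = range i ∪ j '' T := h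
      rw [h']
    simpa [hj.mem_set_image, hij] using this
  have hcard : #X = #D' := by
    apply le_antisymm
    · rw [← hDX, ← mk_image_eq hinj]
      exact mk_le_mk_of_subset subset_union_right
    · refine (mk_union_le _ _).trans ?_
      have a1 : #((fun L : Set W => (i '' L : Set V)) '' {L | IsLowerSet L}) ≤ #X :=
        mk_image_le.trans ((mk_lower_le W).trans (by rw [add_one_eq hWi]; exact hW))
      have a2 : #((fun S : Set W => (range i ∪ j '' S : Set V)) '' D) ≤ #X :=
        mk_image_le.trans hDX.le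
      exact (add_le_add a1 a2).trans (add_eq_self (aleph0_le_mk X)).le
  obtain ⟨e⟩ := Cardinal.eq.mp hcard
  set f : X → Set V := fun x => (e x).1 with hf
  have hfi : Function.Injective f := Subtype.val_injective.comp e.injective
  refine ⟨_, isMaxChain_ker f hfi fun x y => hchain _ (e x).2 _ (e y).2, le_antisymm ?_ ?_⟩
  · refine mk_image_le.trans ((mk_lower_le V).trans ?_)
    rw [hV, add_one_eq hWi]
  · have hsur : ∀ S ∈ D', ∃ x, f x = S := fun S hS => ⟨e.symm ⟨S, hS⟩, by simp [hf]⟩
    have hne : ∀ w w' : W, (i w : V) < i w' →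
        (Setoid.ker fun x => f x ∩ Iio (i w)) ≠
          Setoid.ker fun x => f x ∩ Iio (i w') := by
      intro w w' hlt heq
      obtain ⟨x, hx⟩ := hsur (i '' Iio w) (Or.inl ⟨_, isLowerSet_Iio w, rfl⟩)
      obtain ⟨y, hy⟩ := hsur (i '' Iic w) (Or.inl ⟨_, isLowerSet_Iic w, rfl⟩)
      have h1 : (Setoid.ker fun x => f x ∩ Iio (i w)) x y := by
        change f x ∩ Iio (i w) = f y ∩ Iio (i w)
        rw [hx, hy]
        ext t
        constructor
        · rintro ⟨⟨a, ha, rfl⟩, ht⟩
          exact ⟨⟨a, le_of_lt ha, rfl⟩, ht⟩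
        · rintro ⟨⟨a, ha, rfl⟩, ht⟩
          refine ⟨⟨a, lt_of_le_of_ne ha ?_, rfl⟩, ht⟩
          rintro rfl
          exact absurd ht (lt_irrefl _)
      rw [heq] at h1
      have h2 : f x ∩ Iio (i w') = f y ∩ Iio (i w') := h1
      have h3 : i w ∈ f y ∩ Iio (i w') := ⟨hy ▸ ⟨w, le_rfl, rfl⟩, hlt⟩
      rw [← h2, hx] at h3
      obtain ⟨⟨a, ha, hb⟩, -⟩ := h3
      exact absurd (hi hb) (ne_of_lt ha)
    refine mk_le_of_injective (f := fun w : W => ⟨Setoid.ker fun x => f x ∩ Iio (i w),
      Iio (i w), isLowerSet_Iio _, rfl⟩) fun w w' h => ?_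
    have h' : (Setoid.ker fun x => f x ∩ Iio (i w)) =
        Setoid.ker fun x => f x ∩ Iio (i w') := congrArg Subtype.val h
    rcases lt_trichotomy (i w : V) (i w') with hl | hl | hl
    · exact absurd h' (hne _ _ hl)
    · exact hi hl
    · exact absurd h'.symm (hne _ _ hl)

/-- Short maximal chains. -/
theorem short_chain {X W : Type u} [Infinite X] (hW : #W ≤ #X) {D : Set (Set W)}
    (hD : IsChain (· ⊆ ·) D) (hDX : #D = #X) :
    ∃ C : Set (Setoid X), IsMaxChain (· ≤ ·) C ∧ #C = #W := by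
  have : Infinite W := by
    by_contra h
    rw [not_infinite_iff_finite] at h
    have : #D < ℵ₀ := lt_aleph0_of_finite _
    exact absurd (hDX ▸ this) (not_lt.mpr (aleph0_le_mk X))
  refine short_chain_aux hW hD hDX (V := W ⊕ W) Sum.inl Sum.inr Sum.inl_injective
    Sum.inr_injective (fun _ _ => Sum.inl_ne_inr) ?_
  simp only [mk_sum, lift_id]
  rw [add_eq_self (aleph0_le_mk W)]

/-- A maximal chain of sets separates points. -/
theorem separates {X : Type u} {D : Set (Set X)} (hD : IsMaxChain (· ⊆ ·) D) {x y : X}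
    (hxy : x ≠ y) : ∃ S ∈ D, (x ∈ S ∧ y ∉ S) ∨ (y ∈ S ∧ x ∉ S) := by
  set A : Set X := insert x (⋃₀ {S ∈ D | x ∉ S}) with hA
  have hAD : A ∈ D := by
    refine mem_of_comparable hD fun S hS => ?_
    by_cases hx : x ∈ S
    · refine Or.inl (insert_subset hx (sUnion_subset fun T hT => ?_))
      exact (hD.1.total hT.1 hS).resolve_right fun h => hT.2 (h hx)
    · exact Or.inr ((subset_sUnion_of_mem (show S ∈ {S ∈ D | x ∉ S} from ⟨hS, hx⟩)).trans
        (subset_insert _ _))
  by_cases hy : y ∈ A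
  · rcases hy with h | ⟨S, hS, hyS⟩
    · exact absurd h.symm hxy
    · exact ⟨S, hS.1, Or.inr ⟨hyS, hS.2⟩⟩
  · exact ⟨A, hAD, Or.inl ⟨mem_insert _ _, hy⟩⟩

/-- The partition whose only possibly non-trivial block is `B`. -/
def oneBlock {Y : Type u} (B : Set Y) : Setoid Y where
  r a b := a = b ∨ (a ∈ B ∧ b ∈ B)
  iseqv := ⟨fun _ => Or.inl rfl, fun h => h.elim (fun h => Or.inl h.symm) fun h => Or.inr h.symm,
    fun h h' => by
      rcases h with rfl | h
      · exact h'
      · rcases h' with rfl | h'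
        · exact Or.inr h
        · exact Or.inr ⟨h.1, h'.2⟩⟩

/-- Long maximal chains. -/
theorem long_chain {X : Type u} [Infinite X] {D : Set (Set X)} (hD : IsMaxChain (· ⊆ ·) D) :
    ∃ C : Set (Setoid X), IsMaxChain (· ≤ ·) C ∧ #C = #D := by
  have hc : #X = #(Option X) := by
    rw [mk_option, add_one_eq (aleph0_le_mk X)]
  obtain ⟨e⟩ := Cardinal.eq.mp hc
  set B : Set X → Set X := fun S => {a | ∀ x, e a = some x → x ∈ S} with hB
  set o : X := e.symm none with ho
  set s : X → X := fun x => e.symm (some x) with hs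
  have hoB : ∀ S, o ∈ B S := fun S x hx => by simp [ho] at hx
  have hsB : ∀ S x, s x ∈ B S ↔ x ∈ S := fun S x => by simp [hB, hs]
  have hso : ∀ x, o ≠ s x := fun x h => by simp [ho, hs] at h
  have hcases : ∀ a, a = o ∨ ∃ x, a = s x := fun a => by
    rcases h : e a with _ | x
    · exact Or.inl (by rw [ho, ← h]; simp)
    · exact Or.inr ⟨x, by rw [hs]; simp [← h]⟩
  have hrel : ∀ S x, oneBlock (B S) o (s x) ↔ x ∈ S := fun S x =>
    ⟨fun h => h.elim (fun h => absurd h (hso x)) fun h => (hsB S x).mp h.2,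
      fun h => Or.inr ⟨hoB S, (hsB S x).mpr h⟩⟩
  have mono : ∀ S T, S ⊆ T → oneBlock (B S) ≤ oneBlock (B T) := by
    intro S T h a b hab
    rcases hab with hab | hab
    · exact Or.inl hab
    · exact Or.inr ⟨fun x hx => h (hab.1 x hx), fun x hx => h (hab.2 x hx)⟩
  have hinj : Function.Injective fun S => oneBlock (B S) := by
    intro S T h
    ext x
    have h' : oneBlock (B S) = oneBlock (B T) := h
    rw [← hrel S x, h', hrel]
  refine ⟨(fun S => oneBlock (B S)) '' D, isMaxChain_of ?_ fun R hR => ?_, mk_image_eq hinj⟩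
  · rintro _ ⟨S, hS, rfl⟩ _ ⟨T, hT, rfl⟩ -
    exact (hD.1.total hS hT).imp (mono _ _) (mono _ _)
  have hR' : ∀ S ∈ D, R ≤ oneBlock (B S) ∨ oneBlock (B S) ≤ R := by
    intro S hS
    by_cases h : R = oneBlock (B S)
    · exact Or.inl h.le
    · exact hR _ ⟨S, hS, rfl⟩ h
  set T : Set X := {x | R o (s x)} with hT
  have hTD : T ∈ D := by
    refine mem_of_comparable hD fun S hS => (hR' S hS).imp ?_ ?_
    · exact fun h x hx => (hrel S x).mp (h hx)
    · exact fun h x hx => h ((hrel S x).mpr hx)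
  have hBT : ∀ a, a ∈ B T ↔ R o a := by
    intro a
    rcases hcases a with rfl | ⟨x, rfl⟩
    · exact iff_of_true (hoB T) (R.refl _)
    · exact hsB T x
  refine ⟨T, hTD, le_antisymm ?_ ?_⟩
  · intro a b hab
    rcases hab with rfl | hab
    · exact R.refl _
    · exact R.trans (R.symm ((hBT a).mp hab.1)) ((hBT b).mp hab.2)
  · intro a b hab
    by_cases hEq : a = b
    · exact Or.inl hEq
    have key : ∀ a b, R a b → a ≠ b → ∀ S ∈ D, a ∈ B S → b ∉ B S → R o a := by
      intro a b hab hne S hS ha hb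
      rcases hR' S hS with h | h
      · rcases h hab with h' | h'
        · exact absurd h' hne
        · exact absurd h'.2 hb
      · exact h (Or.inr ⟨hoB S, ha⟩)
    have hoa : R o a := by
      rcases hcases a with rfl | ⟨x, rfl⟩
      · exact R.refl _
      rcases hcases b with rfl | ⟨y, rfl⟩
      · exact R.symm hab
      obtain ⟨S, hS, h | h⟩ := separates hD (x := x) (y := y) fun h => hEq (by rw [h])
      · exact key _ _ hab hEq S hS ((hsB S x).mpr h.1) fun h' => h.2 ((hsB S y).mp h')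
      · exact R.trans (key _ _ (R.symm hab) (Ne.symm hEq) S hS ((hsB S y).mpr h.1)
          fun h' => h.2 ((hsB S x).mp h')) (R.symm hab)
    exact Or.inr ⟨(hBT a).mpr hoa, (hBT b).mpr (R.trans hoa hab)⟩

end Pool.Agent.Lib.MP_98dabe_lc
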